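import Pool.Agent.Helper18.NQ.Bound
import Pool.Agent.Helper1.NQ.Root

/-!
# NQ, Q6: from orbits to inputs
-/

namespace Pool.Agent.Helper66.NQ

open Finset Pool.Agent.Helper19.NF Pool.Agent.Helper74.NW Pool.Agent.Helper99.NQ
open Pool.Agent.Helper74.NE (fine fine_apply)
open Pool.Agent.Helper1.NQ (tab_add word_add word_zero)

set_option linter.unusedSectionVars false

section mv

variable {n D m : ℕ} {F B : Type} [Field F] [AddCommGroup B] [Module F B] [Fintype B]

open Classical in
/-- The change `x` of the blocks of the cells `v`. -/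
noncomputable def mv (v : Fin n × Fin m → B) (x : Ch n D m F B) : B × Word D m B → F :=
  fun z => ∑ c, if z.1 = v c then x c z.2 else 0

theorem mv_apply {v : Fin n × Fin m → B} (hv : Function.Injective v) (x : Ch n D m F B)
    (c : Fin n × Fin m) (l : Word D m B) : mv v x (v c, l) = x c l := by
  classical
  unfold mv
  rw [sum_eq_single c]
  · rw [if_pos rfl]
  · intro c' _ h
    rw [if_neg fun h' => h (hv h').symm]
  · intro h
    exact absurd (mem_univ _) h

theorem mv_of_ne {v : Fin n × Fin m → B} (x : Ch n D m F B) {b : B} (hb : ∀ c, b ≠ v c)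
    (l : Word D m B) : mv v x (b, l) = 0 := by
  classical
  unfold mv
  exact sum_eq_zero fun c _ => if_neg (hb c)

theorem mv_neg (v : Fin n × Fin m → B) (x : Ch n D m F B) : mv v (-x) = -mv v x := by
  classical
  funext z
  rw [Pi.neg_apply]
  unfold mv
  rw [← sum_neg_distrib]
  refine sum_congr rfl fun c _ => ?_
  split_ifs
  · rfl
  · rw [neg_zero]

theorem tab_mv_apply {v : Fin n × Fin m → B} (hv : Function.Injective v) (x : Ch n D m F B)
    (c : Fin n × Fin m) : tab (mv v x) (v c) = word (x c) := by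
  unfold tab
  congr 1
  funext l
  exact mv_apply hv x c l

theorem moved {v : Fin n × Fin m → B} (x : Ch n D m F B) (b : B) (hb : tab (mv v x) b ≠ 0) :
    ∃ c, b = v c := by
  by_contra h
  push Not at h
  refine hb ?_
  unfold tab
  have h1 : (fun l => mv v x (b, l)) = (0 : Word D m B → F) := by
    funext l
    exact mv_of_ne x h l
  rw [h1, word_zero]

variable {g : Fin D → Equiv.Perm (Fin n)} {x0 : Fin n × Fin m → B} {i : ℕ} [NeZero m]
  {I : B × Word D m B → F}

theorem cf_inj (h : CF (fine g) x0 i (tab I)) : Function.Injective (val (fine g) x0 (tab I) i) :=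
  fun c c' e => (h i i c c' le_rfl le_rfl e).2

/-- The input after the change `x` of the blocks of row `i`. -/
noncomputable def act (g : Fin D → Equiv.Perm (Fin n)) (x0 : Fin n × Fin m → B) (i : ℕ)
    (I : B × Word D m B → F) (x : Ch n D m F B) : B × Word D m B → F :=
  I + mv (val (fine g) x0 (tab I) i) x

theorem val_act (h : CF (fine g) x0 i (tab I)) (x : Ch n D m F B) {j : ℕ} (hj : j ≤ i)
    (u : Fin n × Fin m) :
    val (fine g) x0 (tab (act g x0 i I x)) j u = val (fine g) x0 (tab I) j u := by
  unfold act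
  rw [tab_add]
  exact val_add h _ (moved x) j hj u

theorem val_act' (h : CF (fine g) x0 i (tab I)) (x : Ch n D m F B) :
    val (fine g) x0 (tab (act g x0 i I x)) i = val (fine g) x0 (tab I) i :=
  funext fun u => val_act h x le_rfl u

theorem cf_act (h : CF (fine g) x0 i (tab I)) (x : Ch n D m F B) :
    CF (fine g) x0 i (tab (act g x0 i I x)) := by
  unfold act
  rw [tab_add]
  exact CF_add h _ (moved x)

theorem val_act_succ (h : CF (fine g) x0 i (tab I)) (x : Ch n D m F B) (u : Fin n × Fin m) :
    val (fine g) x0 (tab (act g x0 i I x)) (i + 1) u =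
      val (fine g) x0 (tab I) (i + 1) u + lam g x u := by
  unfold act
  rw [tab_add, val_add_succ h _ (moved x)]
  congr 1
  unfold lam
  refine sum_congr rfl fun s _ => ?_
  rw [tab_mv_apply (cf_inj h)]

theorem act_neg (h : CF (fine g) x0 i (tab I)) (x : Ch n D m F B) :
    act g x0 i (act g x0 i I x) (-x) = I := by
  show act g x0 i I x + mv (val (fine g) x0 (tab (act g x0 i I x)) i) (-x) = I
  rw [val_act' h, mv_neg]
  unfold act
  rw [add_assoc, add_neg_cancel, add_zero]

/-- Two changed inputs agree outside the cells of row `i` whose changes are different. -/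
theorem act_congr (h : CF (fine g) x0 i (tab I)) (x x' : Ch n D m F B) (z : B × Word D m B)
    (hz : ∀ c, val (fine g) x0 (tab I) i c = z.1 → x c z.2 = x' c z.2) :
    act g x0 i I x z = act g x0 i I x' z := by
  obtain ⟨b, l⟩ := z
  unfold act
  rw [Pi.add_apply, Pi.add_apply]
  congr 1
  by_cases hb : ∃ c, b = val (fine g) x0 (tab I) i c
  · obtain ⟨c, rfl⟩ := hb
    rw [mv_apply (cf_inj h), mv_apply (cf_inj h)]
    exact hz c rfl
  · push Not at hb
    rw [mv_of_ne x hb, mv_of_ne x' hb]

end mv

section free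

variable {D m : ℕ} {B : Type} [Fintype B]

open Classical in
theorem free_append (a b : List (B × Word D m B)) : free (a ++ b) = free a ∩ free b := by
  unfold free
  ext z
  simp only [mem_filter, mem_univ, true_and, mem_inter, List.mem_append, not_or]

theorem mem_free {c : List (B × Word D m B)} {z : B × Word D m B} : z ∈ free c ↔ z ∉ c := by
  classical
  unfold free
  simp only [mem_filter, mem_univ, true_and]

end free

variable {n D m d S : ℕ} [NeZero m] {F B Z : Type} [Field F] [Fintype F] [AddCommGroup B]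
  [Module F B] [Fintype B]

/-- The bound for one orbit. -/
theorem orbit (P : NProg (B × Word D m B) F Z S) (g : Fin D → Equiv.Perm (Fin n))
    (x0 : Fin n × Fin m → B)
    (h T a i κ j : ℕ) (s p t : Fin S) (J : Finset (Fin n)) (h1 h2 : Fin n → Fin D × Fin m)
    (hj : j ≤ J.card)
    (hh : h ≤ Fintype.card (Word D m B)) (hq : Fintype.card (Word D m B) ≤ h * Fintype.card F)
    (hT : T ≤ Fintype.card (B × Word D m B)) (η : ℝ)
    (hη : η = 1 + (1 - (T : ℝ) / Fintype.card (B × Word D m B) -
      (h : ℝ) / Fintype.card (Word D m B)) / 2)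
    (hη1 : 1 ≤ η) (hκ : 2 * a ≤ κ) (I : B × Word D m B → F) (hI : CF (fine g) x0 i (tab I)) :
    (Nat.card {x : Ch n D m F B // InE P g x0 h T a i s p t J h1 h2 (act g x0 i I x)} : ℝ) ≤
      err n m d a κ j (Fintype.card F) ((h : ℝ) / Fintype.card (Word D m B)) η *
        Nat.card (Ch n D m F B) := by
  classical
  set E : Finset (Ch n D m F B) :=
    univ.filter fun x => InE P g x0 h T a i s p t J h1 h2 (act g x0 i I x) with hE
  have hmem : ∀ x, x ∈ E ↔ InE P g x0 h T a i s p t J h1 h2 (act g x0 i I x) := by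
    intro x
    rw [hE]
    simp only [mem_filter, mem_univ, true_and]
  have hc : Nat.card {x : Ch n D m F B // InE P g x0 h T a i s p t J h1 h2 (act g x0 i I x)} =
      E.card := by
    rw [Nat.card_eq_fintype_card, Fintype.card_subtype]
  rw [hc]
  -- runs
  have hw1 : ∀ x, ∃ c : List (B × Word D m B), x ∈ E → P.Run (act g x0 i I x) s c p ∧
      ∀ u ∈ J, h ≤ gap (free c) (val (fine g) x0 (tab (act g x0 i I x)) i (pos g h1 u)) := by
    intro x
    by_cases hx : x ∈ E
    · obtain ⟨c, hc⟩ := ((hmem x).1 hx).win1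
      exact ⟨c, fun _ => hc⟩
    · exact ⟨[], fun h => absurd h hx⟩
  have hw2 : ∀ x, ∃ c : List (B × Word D m B), x ∈ E → P.Run (act g x0 i I x) p c t ∧
      ∀ u ∈ J, h ≤ gap (free c) (val (fine g) x0 (tab (act g x0 i I x)) i (pos g h2 u)) := by
    intro x
    by_cases hx : x ∈ E
    · obtain ⟨c, hc⟩ := ((hmem x).1 hx).win2
      exact ⟨c, fun _ => hc⟩
    · exact ⟨[], fun h => absurd h hx⟩
  choose c1 hc1 using hw1
  choose c2 hc2 using hw2
  set cell : Fin n × Fin m → B := val (fine g) x0 (tab I) i with hcell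
  set t0 : Fin n × Fin m → B := val (fine g) x0 (tab I) (i + 1) with ht0
  refine Pool.Agent.Helper18.NQ.orbit_bound (d := d) g h1 h2 cell t0 h T a E (fun x => free (c1 x))
    (fun x => free (c2 x)) ?_ J κ j hj ?_ ?_ hh hq hT η hη hη1 hκ
  · intro x hx x1 hx1 x2 hx2 ha1 ha2
    have hcong : ∀ (y : Ch n D m F B) (c : List (B × Word D m B)),
        (∀ p l, y p l ≠ x p l → l ∈ left cell (free c) p) →
        ∀ z ∈ c, act g x0 i I y z = act g x0 i I x z := by
      intro y c hy z hz
      refine act_congr hI y x z fun q hq => ?_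
      by_contra hne
      have h3 := hy q z.2 hne
      unfold left at h3
      rw [mem_filter] at h3
      have h4 := h3.2
      rw [hcell, hq, mem_free] at h4
      exact h4 hz
    have r1 : P.Run (act g x0 i I x) s (c1 x1) p :=
      run_congr (hc1 x1 hx1).1 (hcong x1 (c1 x1) ha1)
    have r2 : P.Run (act g x0 i I x) p (c2 x2) t :=
      run_congr (hc2 x2 hx2).1 (hcong x2 (c2 x2) ha2)
    obtain ⟨f1, f2⟩ := ((hmem x).1 hx).force _ (run_append r1 r2)
    rw [free_append] at f1 f2
    refine ⟨f2, f1.trans (Nat.add_le_add_right (card_le_card ?_) a)⟩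
    intro u hu
    unfold full at hu
    rw [mem_filter] at hu ⊢
    refine ⟨mem_univ _, fun t' => ?_⟩
    have h5 := hu.2 t'
    rw [val_act_succ hI] at h5
    exact h5
  · intro x hx u hu
    have h3 := (hc1 x hx).2 u hu
    rw [val_act hI x le_rfl] at h3
    exact h3
  · intro x hx u hu
    have h3 := (hc2 x hx).2 u hu
    rw [val_act hI x le_rfl] at h3
    exact h3

theorem card_inE (P : NProg (B × Word D m B) F Z S) (g : Fin D → Equiv.Perm (Fin n)) (x0 : Fin n × Fin m → B)
    (h T a i κ j : ℕ) (s p t : Fin S) (J : Finset (Fin n)) (h1 h2 : Fin n → Fin D × Fin m) (hj : j ≤ J.card)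
    (hh : h ≤ Fintype.card (Word D m B)) (hq : Fintype.card (Word D m B) ≤ h * Fintype.card F)
    (hT : T ≤ Fintype.card (B × Word D m B)) (η : ℝ)
    (hη : η = 1 + (1 - (T : ℝ) / Fintype.card (B × Word D m B) - (h : ℝ) / Fintype.card (Word D m B)) / 2)
    (hη1 : 1 ≤ η) (hκ : 2 * a ≤ κ) :
    (Nat.card {I // InE P g x0 h T a i s p t J h1 h2 I} : ℝ) ≤
      err n m d a κ j (Fintype.card F) ((h : ℝ) / Fintype.card (Word D m B)) η *
        Nat.card (B × Word D m B → F) := by
  classical
  set δ : ℝ := err n m d a κ j (Fintype.card F) ((h : ℝ) / Fintype.card (Word D m B)) η with hδ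
  have h5 := orbit (d := d) P g x0 h T a i κ j s p t J h1 h2 hj hh hq hT η hη hη1 hκ
  rw [← hδ] at h5
  let V : Type := B × Word D m B → F
  let Y : Type := Ch n D m F B
  have hFinV : Fintype V := Fintype.ofFinite V
  have hFinY : Fintype Y := Fintype.ofFinite Y
  have hδ0 : 0 ≤ δ := by
    rw [hδ]
    unfold err
    have : 0 ≤ η := by linarith
    positivity
  -- pairs of an input and a change
  let PP : Type := {p' : V × Y // CF (fine g) x0 i (tab p'.1) ∧
    InE P g x0 h T a i s p t J h1 h2 (act g x0 i p'.1 p'.2)}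
  have e1 : {I : V // InE P g x0 h T a i s p t J h1 h2 I} × Y ≃ PP :=
    { toFun := fun q => ⟨(act g x0 i q.1.1 (-q.2), q.2), cf_act q.1.2.cf _, by
        have h := act_neg q.1.2.cf (-q.2)
        rw [neg_neg] at h
        show InE P g x0 _ T a i s p t J h1 h2 (act g x0 i (act g x0 i q.1.1 (-q.2)) q.2)
        rw [h]
        exact q.1.2⟩
      invFun := fun q => (⟨act g x0 i q.1.1 q.1.2, q.2.2⟩, q.1.2)
      left_inv := by
        rintro ⟨⟨I, hI⟩, y⟩
        have h := act_neg hI.cf (-y)
        rw [neg_neg] at h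
        exact Prod.ext (Subtype.ext h) rfl
      right_inv := by
        rintro ⟨⟨I, y⟩, h1, h2⟩
        exact Subtype.ext (Prod.ext (act_neg h1 y) rfl) }
  have e2 : PP ≃ Σ I : {I : V // CF (fine g) x0 i (tab I)},
      {y : Y // InE P g x0 h T a i s p t J h1 h2 (act g x0 i I.1 y)} :=
    { toFun := fun q => ⟨⟨q.1.1, q.2.1⟩, ⟨q.1.2, q.2.2⟩⟩
      invFun := fun q => ⟨(q.1.1, q.2.1), q.1.2, q.2.2⟩
      left_inv := fun q => rfl
      right_inv := fun q => rfl }
  have h1' : Nat.card {I : V // InE P g x0 h T a i s p t J h1 h2 I} * Nat.card Y = Nat.card PP := by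
    rw [← Nat.card_congr e1]
    exact (Nat.card_prod _ _).symm
  have h2' : (Nat.card PP : ℝ) ≤ δ * Nat.card Y * Nat.card V := by
    rw [Nat.card_congr e2, Nat.card_eq_fintype_card, Fintype.card_sigma]
    push_cast
    calc ∑ I : {I : V // CF (fine g) x0 i (tab I)},
          (Fintype.card {y : Y // InE P g x0 h T a i s p t J h1 h2 (act g x0 i I.1 y)} : ℝ)
        ≤ ∑ _I : {I : V // CF (fine g) x0 i (tab I)}, δ * Nat.card Y := by
          refine Finset.sum_le_sum fun I _ => ?_
          rw [← Nat.card_eq_fintype_card]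
          exact h5 I.1 I.2
      _ = δ * Nat.card Y * Fintype.card {I : V // CF (fine g) x0 i (tab I)} := by
          rw [Finset.sum_const, Finset.card_univ, nsmul_eq_mul, mul_comm]
      _ ≤ δ * Nat.card Y * Nat.card V := by
          rw [Nat.card_eq_fintype_card (α := V)]
          refine mul_le_mul_of_nonneg_left ?_ (by positivity)
          exact_mod_cast Fintype.card_subtype_le _
  have h3 : (0 : ℝ) < Nat.card Y := by
    have : Nonempty Y := ⟨0⟩
    exact_mod_cast Nat.card_pos
  have h4 : (Nat.card {I : V // InE P g x0 h T a i s p t J h1 h2 I} : ℝ) * Nat.card Y ≤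
      δ * Nat.card V * Nat.card Y := by
    rw [show δ * (Nat.card V : ℝ) * Nat.card Y = δ * Nat.card Y * Nat.card V by ring]
    refine le_trans (le_of_eq ?_) h2'
    exact_mod_cast h1'
  exact le_of_mul_le_mul_right h4 h3

end Pool.Agent.Helper66.NQ
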